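import Pool.Agent.SlowChain.Final

set_option autoImplicit false

namespace Pool.Agent.Results.MP_00a158_co.SlowestChain

open SlowChain

/-- **Slowest-chain theorem (Q1, affirmative).**  For all `m ≥ n ≥ 1` the antidiagonal chain is a
ν-chain on the grid `G_{m,n}`, and every ν-chain `c_0, …, c_L` on `G_{m,n}` has weight at most the
weight `D(m,n)` of the antidiagonal chain. -/
theorem result (m n : ℕ) (hn : 1 ≤ n) (hm : n ≤ m) :
    IsNuChain m n (m + n - 2) (adiag m n) ∧
    ∀ (L : ℕ) (c : ℕ → ℕ), IsNuChain m n L c →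
      weight m n L c ≤ weight m n (m + n - 2) (adiag m n) :=
  ⟨adiag_chain m n, fun _ _ hc => slowest_chain hn hm hc⟩

end Pool.Agent.Results.MP_00a158_co.SlowestChain
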